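import Pool.Agent.W2helper78.LT.Stm

/-!
Project LT, piece PS: the perimeter of a cluster inside `[0, X] × [0, Y]` of squared diameter at
least `8 a²` is at most the number `NT X Y a` of two-arm pairs.
-/

set_option autoImplicit false

namespace Pool.Agent.W2helper54.LT

open W78LT H974 Finset H342P H984P H984H TH992.L

theorem ps : St_PS := by
  classical
  intro n X Y a F v hF ha hX hY hin hfar8
  obtain ⟨c, d, hc, hd, h8⟩ := hfar8
  have hfar : ∀ (u : Vtx) (k : ℤ), k ≤ a → ∃ w, Reach (↑F : Set Edg) v w ∧ FarF u k w := by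
    intro u k hk
    by_contra hcon
    push Not at hcon
    have h1 := hcon c hc
    have h2 := hcon d hd
    have h3 := dsq_lt h1 h2
    have h4 : 0 < k := by
      unfold FarF at h1
      rw [not_not] at h1
      unfold inF at h1
      omega
    nlinarith
  have hsub : RE 0 X 0 Y ⊆ RE 0 n 0 n := by
    intro e he
    obtain ⟨x, y, t⟩ := e
    cases t
    · rw [mem_RE_false] at he ⊢
      omega
    · rw [mem_RE_true] at he ⊢
      omega
  have hEC : ∀ e : Edg, e ∈ EC (↑F : Set Edg) v → e ∈ RE 0 X 0 Y := by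
    intro e he
    have h1 := hin _ he.2
    have h2 : Reach (↑F : Set Edg) v (tgt e) := he.2.trans (Adj.reach ⟨e, he.1, Or.inl ⟨rfl, rfl⟩⟩)
    have h3 := hin _ h2
    obtain ⟨x, y, t⟩ := e
    cases t
    · rw [mem_RE_false]
      simp [inR] at h1 h3
      omega
    · rw [mem_RE_true]
      simp [inR] at h1 h3
      omega
  have hper : (per n (↑F : Set Edg) v : ℝ) = ∑ e ∈ RE 0 X 0 Y, if e ∈ EC (↑F : Set Edg) v then
      (((if Outer (↑F : Set Edg) v (dsrc e) then 1 else 0) +
        (if Outer (↑F : Set Edg) v (dtgt e) then 1 else 0) : ℝ)) else 0 := by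
    unfold per
    push_cast
    symm
    apply Finset.sum_subset hsub
    intro e _ he
    rw [if_neg]
    intro h
    exact he (hEC e h)
  rw [hper]
  unfold NT
  apply Finset.sum_le_sum
  intro e he
  have hk : rr a (src e) ≤ (src e).1 := by
    unfold rr
    exact (min_le_right _ _).trans (min_le_left _ _)
  obtain ⟨w, hw1, hw2⟩ := hfar (src e) (rr a (src e)) (min_le_left _ _)
  split_ifs with h1 h2 h3 h3
  · rw [ind_of (two_of_outer h1 (inc_dsrc e) h2 hk hw1 hw2),
      ind_of (two_of_outer h1 (inc_dtgt e) h3 hk hw1 hw2)]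
  · rw [ind_of (two_of_outer h1 (inc_dsrc e) h2 hk hw1 hw2)]
    linarith [ind_nonneg (Two (src e) (dtgt e) (rr a (src e)) (↑F : Set Edg))]
  · rw [ind_of (two_of_outer h1 (inc_dtgt e) h3 hk hw1 hw2)]
    linarith [ind_nonneg (Two (src e) (dsrc e) (rr a (src e)) (↑F : Set Edg))]
  · linarith [ind_nonneg (Two (src e) (dtgt e) (rr a (src e)) (↑F : Set Edg)),
      ind_nonneg (Two (src e) (dsrc e) (rr a (src e)) (↑F : Set Edg))]
  · linarith [ind_nonneg (Two (src e) (dtgt e) (rr a (src e)) (↑F : Set Edg)),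
      ind_nonneg (Two (src e) (dsrc e) (rr a (src e)) (↑F : Set Edg))]

end Pool.Agent.W2helper54.LT
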