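import Pool.Agent.W2helper78.LT.Stm

/-!
# Project LT (MP_6bd702_pr): piece SUM
-/

namespace Pool.Agent.W2helper54.LT

open H974 H342P Finset W78LT

theorem sum_RE_le' (n m : ℤ) (ψ : Vtx → ℝ) (hψ : ∀ u, 0 ≤ ψ u) :
    ∑ e ∈ RE 0 n 0 m, ψ (src e) ≤
      2 * ∑ x ∈ Finset.Icc (0:ℤ) n, ∑ y ∈ Finset.Icc (0:ℤ) m, ψ (x, y) := by
  have h1 : ∑ e ∈ RE 0 n 0 m, ψ (src e) ≤ ∑ e ∈ (Finset.Icc (0:ℤ) n ×ˢ
      (Finset.Icc (0:ℤ) m ×ˢ (Finset.univ : Finset Bool))), ψ (src e) := by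
    apply Finset.sum_le_sum_of_subset_of_nonneg
    · intro e he
      exact (Finset.mem_filter.mp he).1
    · intro e _ _
      exact hψ _
  refine h1.trans ?_
  rw [Finset.sum_product, Finset.mul_sum]
  apply Finset.sum_le_sum
  intro x _
  rw [Finset.sum_product, Finset.mul_sum]
  apply Finset.sum_le_sum
  intro y _
  simp [two_mul]

theorem ph_rr {C s : ℝ} (hC : 0 ≤ C) (a : ℤ) (u : Vtx) :
    ph C s (rr a u) ≤ ph C s a + ph C s u.1 + ph C s u.2 := by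
  have h1 := ph_nonneg (s := s) hC a
  have h2 := ph_nonneg (s := s) hC u.1
  have h4 := ph_nonneg (s := s) hC u.2
  unfold rr
  rcases min_choice a (min u.1 u.2) with h | h <;> rw [h]
  · linarith
  · rcases min_choice u.1 u.2 with h | h <;> rw [h] <;> linarith

theorem sum : St_SUM := by
  intro C hC
  refine ⟨4 * (22 + 186 * C), by positivity, fun a t ha ht => ?_⟩
  have haR : (1:ℝ) ≤ a := by exact_mod_cast ha
  have htR : (1:ℝ) ≤ t := by exact_mod_cast ht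
  have ha0 : (0:ℝ) < a := by linarith
  have hX : (16 * ((t:ℤ) * a) + 2 * a) = ((16 * (t * a) + 2 * a : ℕ) : ℤ) := by push_cast; ring
  have hY : (2 * (a:ℤ)) = ((2 * a : ℕ) : ℤ) := by push_cast; ring
  set X : ℕ := 16 * (t * a) + 2 * a with hXd
  set Y : ℕ := 2 * a with hYd
  rw [hX, hY]
  have h0 := sum_RE_le' (X:ℤ) (Y:ℤ) (fun u => 2 * (ph C (1/4) a + ph C (1/4) u.1 + ph C (1/4) u.2))
    (by
      intro u
      have h1 := ph_nonneg (s := 1/4) hC.le a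
      have h2 := ph_nonneg (s := 1/4) hC.le u.1
      have h4 := ph_nonneg (s := 1/4) hC.le u.2
      positivity)
  have h1 : ∑ e ∈ RE 0 (X:ℤ) 0 (Y:ℤ), 2 * ph C (1/4) (rr a (src e)) ≤
      ∑ e ∈ RE 0 (X:ℤ) 0 (Y:ℤ),
        2 * (ph C (1/4) a + ph C (1/4) (src e).1 + ph C (1/4) (src e).2) := by
    apply Finset.sum_le_sum
    intro e _
    have := ph_rr (s := 1/4) hC.le a (src e)
    linarith
  refine h1.trans (h0.trans ?_)
  have hcX : (Finset.Icc (0:ℤ) X).card = X + 1 := by rw [Int.card_Icc]; omega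
  have hcY : (Finset.Icc (0:ℤ) Y).card = Y + 1 := by rw [Int.card_Icc]; omega
  have h2 : 2 * ∑ x ∈ Finset.Icc (0:ℤ) X, ∑ y ∈ Finset.Icc (0:ℤ) Y,
      2 * (ph C (1/4) a + ph C (1/4) x + ph C (1/4) y) =
      4 * (((X:ℝ) + 1) * (Y + 1) * ph C (1/4) a + (Y + 1) * ∑ x ∈ Finset.Icc (0:ℤ) X, ph C (1/4) x
        + (X + 1) * ∑ y ∈ Finset.Icc (0:ℤ) Y, ph C (1/4) y) := by
    simp_rw [← Finset.mul_sum, Finset.sum_add_distrib, Finset.sum_const, hcX, hcY, nsmul_eq_mul,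
      ← Finset.mul_sum]
    push_cast
    ring
  simp only
  rw [h2]
  have h3 := sum_ph_le (s := 1/4) hC.le (by norm_num) (by norm_num) X
  have h4 := sum_ph_le (s := 1/4) hC.le (by norm_num) (by norm_num) Y
  have e34 : (1:ℝ) - 1/4 = 3/4 := by norm_num
  rw [e34] at h3 h4
  set A : ℝ := (a:ℝ) ^ (7/4 : ℝ) with hA
  set B : ℝ := (a:ℝ) ^ (3/4 : ℝ) with hB
  have hAB : A = a * B := by
    rw [hA, hB, show (7/4:ℝ) = 1 + 3/4 by norm_num, Real.rpow_add ha0, Real.rpow_one]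
  have hB1 : 1 ≤ B := Real.one_le_rpow haR (by norm_num)
  have hpa : ph C (1/4) (a:ℤ) * (a:ℝ) = C * B := by
    unfold ph
    rw [if_neg (by omega)]
    push_cast
    have : (a:ℝ) ^ (-(1/4:ℝ)) * a = B := by
      rw [hB, show (3/4:ℝ) = -(1/4) + 1 by norm_num, Real.rpow_add ha0, Real.rpow_one]
    rw [mul_assoc, this]
  have hYR0 : (Y:ℝ) = 2 * a := by rw [hYd]; push_cast; ring
  have hXR0 : (X:ℝ) = 16 * (t * a) + 2 * a := by rw [hXd]; push_cast; rw [hYR0]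
  have hXR : (X:ℝ) + 1 ≤ 19 * (t * a) := by
    have : (1:ℝ) ≤ t * a := by nlinarith
    have h5 : (a:ℝ) ≤ t * a := by nlinarith
    rw [hXR0]; linarith
  have hYR : (Y:ℝ) + 1 ≤ 3 * a := by
    rw [hYR0]; linarith
  have hX34 : (X:ℝ) ^ (3/4:ℝ) ≤ 18 * t * B := by
    have h5 : (X:ℝ) ≤ 18 * t * a := by
      have h5 : (a:ℝ) ≤ t * a := by nlinarith
      rw [hXR0]; linarith
    calc (X:ℝ) ^ (3/4:ℝ) ≤ (18 * t * a) ^ (3/4:ℝ) :=
          Real.rpow_le_rpow (Nat.cast_nonneg _) h5 (by norm_num)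
      _ = (18 * t) ^ (3/4:ℝ) * B := by rw [Real.mul_rpow (by positivity) ha0.le]
      _ ≤ (18 * t) * B := by
          apply mul_le_mul_of_nonneg_right _ (by positivity)
          have : (1:ℝ) ≤ 18 * t := by linarith
          calc (18 * (t:ℝ)) ^ (3/4:ℝ) ≤ (18 * t) ^ (1:ℝ) :=
                Real.rpow_le_rpow_of_exponent_le this (by norm_num)
            _ = _ := Real.rpow_one _
  have hY34 : (Y:ℝ) ^ (3/4:ℝ) ≤ 2 * B := by
    rw [hYR0, Real.mul_rpow (by norm_num) ha0.le]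
    apply mul_le_mul_of_nonneg_right _ (by positivity)
    calc (2:ℝ) ^ (3/4:ℝ) ≤ 2 ^ (1:ℝ) :=
          Real.rpow_le_rpow_of_exponent_le (by norm_num) (by norm_num)
      _ = _ := Real.rpow_one _
  have hSX : ∑ x ∈ Finset.Icc (0:ℤ) X, ph C (1/4) x ≤ 1 + 24 * C * (t * B) := by
    refine h3.trans ?_
    have : C * ((X:ℝ) ^ (3/4:ℝ) / (3/4)) ≤ C * ((18 * t * B) / (3/4)) := by gcongr
    linarith
  have hSY : ∑ x ∈ Finset.Icc (0:ℤ) Y, ph C (1/4) x ≤ 1 + 3 * C * B := by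
    refine h4.trans ?_
    have : C * ((Y:ℝ) ^ (3/4:ℝ) / (3/4)) ≤ C * ((2 * B) / (3/4)) := by gcongr
    have hCB : 0 ≤ C * B := by positivity
    linarith
  have hp0 := ph_nonneg (s := 1/4) hC.le (a:ℤ)
  have hSX0 : 0 ≤ ∑ x ∈ Finset.Icc (0:ℤ) X, ph C (1/4) x :=
    Finset.sum_nonneg fun x _ => ph_nonneg hC.le x
  have hSY0 : 0 ≤ ∑ x ∈ Finset.Icc (0:ℤ) Y, ph C (1/4) x :=
    Finset.sum_nonneg fun x _ => ph_nonneg hC.le x
  have T1 : ((X:ℝ) + 1) * (Y + 1) * ph C (1/4) a ≤ 57 * C * (t * A) := by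
    calc ((X:ℝ) + 1) * (Y + 1) * ph C (1/4) a ≤ (19 * (t * a)) * (3 * a) * ph C (1/4) a := by
          gcongr
      _ = 57 * t * a * (ph C (1/4) a * a) := by ring
      _ = 57 * C * (t * A) := by rw [hpa, hAB]; ring
  have T2 : ((Y:ℝ) + 1) * ∑ x ∈ Finset.Icc (0:ℤ) X, ph C (1/4) x ≤
      3 * (t * A) + 72 * C * (t * A) := by
    calc ((Y:ℝ) + 1) * ∑ x ∈ Finset.Icc (0:ℤ) X, ph C (1/4) x ≤
          (3 * a) * (1 + 24 * C * (t * B)) := by gcongr
      _ = 3 * a + 72 * C * (t * A) := by rw [hAB]; ring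
      _ ≤ _ := by
          have : (a:ℝ) ≤ t * A := by
            rw [hAB]
            have : (1:ℝ) ≤ t * B := by nlinarith
            nlinarith
          linarith
  have T3 : ((X:ℝ) + 1) * ∑ x ∈ Finset.Icc (0:ℤ) Y, ph C (1/4) x ≤
      19 * (t * A) + 57 * C * (t * A) := by
    calc ((X:ℝ) + 1) * ∑ x ∈ Finset.Icc (0:ℤ) Y, ph C (1/4) x ≤
          (19 * (t * a)) * (1 + 3 * C * B) := by gcongr
      _ = 19 * (t * a) + 57 * C * (t * A) := by rw [hAB]; ring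
      _ ≤ _ := by
          have : (t:ℝ) * a ≤ t * A := by
            rw [hAB]
            have : (a:ℝ) ≤ a * B := by nlinarith
            nlinarith
          linarith
  have hfin : 0 ≤ C * (t * A) := by positivity
  have hA0 : 0 ≤ (t:ℝ) * A := by positivity
  nlinarith [T1, T2, T3, hfin]

end Pool.Agent.W2helper54.LT
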