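import Pool.Agent.W2helper1.LT.Stm2
import Pool.Agent.Helper717.LT.P_slice_sys
import Pool.Agent.Helper717.LT.P_gam_der

/-! Piece LT-7 (`Lim`) of MP_cfe56d_mp: continuity of the Fisher weight for `H¹` convergence. -/

set_option autoImplicit false

open MeasureTheory Set Filter Topology Real
open scoped Matrix

namespace Pool.Agent.W2helper54.LT

open LTd Pool.Agent.W2helper1.LT

theorem cs_abs {α : Type*} [MeasurableSpace α] {μ : Measure α} {a b : α → ℝ}
    (ha : MemLp a 2 μ) (hb : MemLp b 2 μ) :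
    ∫ x, |a x * b x| ∂μ ≤ √(∫ x, a x ^ 2 ∂μ) * √(∫ x, b x ^ 2 ∂μ) := by
  have h := integral_mul_le_Lp_mul_Lq_of_nonneg (μ := μ) (p := 2) (q := 2)
    Real.HolderConjugate.two_two (f := fun x => |a x|) (g := fun x => |b x|)
    (ae_of_all _ fun x => abs_nonneg _) (ae_of_all _ fun x => abs_nonneg _)
    (by rw [ENNReal.ofReal_ofNat]; exact ha.abs) (by rw [ENNReal.ofReal_ofNat]; exact hb.abs)
  have e1 : ∫ x, |a x * b x| ∂μ = ∫ x, |a x| * |b x| ∂μ := by simp only [abs_mul]
  rw [e1]
  refine h.trans (le_of_eq ?_)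
  rw [Real.sqrt_eq_rpow, Real.sqrt_eq_rpow]
  simp only [Real.rpow_two, sq_abs]

theorem prod_L1 {α : Type*} [MeasurableSpace α] {μ : Measure α} {u v : α → ℝ}
    {U V : ℕ → α → ℝ} (hu : MemLp u 2 μ) (hv : MemLp v 2 μ) (hU : ∀ k, MemLp (U k) 2 μ)
    (hV : ∀ k, MemLp (V k) 2 μ)
    (h1 : Tendsto (fun k => ∫ x, (U k x - u x) ^ 2 ∂μ) atTop (𝓝 0))
    (h2 : Tendsto (fun k => ∫ x, (V k x - v x) ^ 2 ∂μ) atTop (𝓝 0)) :
    Tendsto (fun k => ∫ x, |U k x * V k x - u x * v x| ∂μ) atTop (𝓝 0) := by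
  have s1 : Tendsto (fun k => √(∫ x, (U k x - u x) ^ 2 ∂μ)) atTop (𝓝 0) := by
    have := (Real.continuous_sqrt.tendsto 0).comp h1
    rw [Real.sqrt_zero] at this
    exact this
  have s2 : Tendsto (fun k => √(∫ x, (V k x - v x) ^ 2 ∂μ)) atTop (𝓝 0) := by
    have := (Real.continuous_sqrt.tendsto 0).comp h2
    rw [Real.sqrt_zero] at this
    exact this
  have hb : Tendsto (fun k => √(∫ x, (U k x - u x) ^ 2 ∂μ) * √(∫ x, (V k x - v x) ^ 2 ∂μ) +
      √(∫ x, (U k x - u x) ^ 2 ∂μ) * √(∫ x, v x ^ 2 ∂μ) +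
      √(∫ x, u x ^ 2 ∂μ) * √(∫ x, (V k x - v x) ^ 2 ∂μ)) atTop (𝓝 0) := by
    have := ((s1.mul s2).add (s1.mul_const (√(∫ x, v x ^ 2 ∂μ)))).add
      (s2.const_mul (√(∫ x, u x ^ 2 ∂μ)))
    simpa using this
  refine squeeze_zero (fun k => integral_nonneg fun x => abs_nonneg _) (fun k => ?_) hb
  have m1 : MemLp (fun x => U k x - u x) 2 μ := (hU k).sub hu
  have m2 : MemLp (fun x => V k x - v x) 2 μ := (hV k).sub hv
  have i1 : Integrable (fun x => (U k x - u x) * (V k x - v x)) μ := m1.integrable_mul m2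
  have i2 : Integrable (fun x => (U k x - u x) * v x) μ := m1.integrable_mul hv
  have i3 : Integrable (fun x => u x * (V k x - v x)) μ := hu.integrable_mul m2
  have i4 : Integrable (fun x => U k x * V k x - u x * v x) μ :=
    ((hU k).integrable_mul (hV k)).sub (hu.integrable_mul hv)
  calc ∫ x, |U k x * V k x - u x * v x| ∂μ
      ≤ ∫ x, (|(U k x - u x) * (V k x - v x)| + |(U k x - u x) * v x| +
          |u x * (V k x - v x)|) ∂μ := by
        refine integral_mono i4.abs ((i1.abs.add i2.abs).add i3.abs) fun x => ?_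
        have e : U k x * V k x - u x * v x = (U k x - u x) * (V k x - v x) + (U k x - u x) * v x +
            u x * (V k x - v x) := by ring
        show |U k x * V k x - u x * v x| ≤ _
        rw [e]
        exact (abs_add_le _ _).trans (add_le_add (abs_add_le _ _) le_rfl)
    _ = (∫ x, |(U k x - u x) * (V k x - v x)| ∂μ) + (∫ x, |(U k x - u x) * v x| ∂μ) +
          ∫ x, |u x * (V k x - v x)| ∂μ := by
        have e1 : ∫ x, (|(U k x - u x) * (V k x - v x)| + |(U k x - u x) * v x| +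
            |u x * (V k x - v x)|) ∂μ = (∫ x, (|(U k x - u x) * (V k x - v x)| +
            |(U k x - u x) * v x|) ∂μ) + ∫ x, |u x * (V k x - v x)| ∂μ :=
          integral_add (i1.abs.add i2.abs) i3.abs
        have e2 : ∫ x, (|(U k x - u x) * (V k x - v x)| + |(U k x - u x) * v x|) ∂μ =
            (∫ x, |(U k x - u x) * (V k x - v x)| ∂μ) + ∫ x, |(U k x - u x) * v x| ∂μ :=
          integral_add i1.abs i2.abs
        rw [e1, e2]
    _ ≤ _ := add_le_add (add_le_add (cs_abs m1 m2) (cs_abs m1 hv)) (cs_abs hu m2)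

/-! ### Slices -/

theorem slice_base {m : ℕ} {h : (Fin (m + 1) → ℝ) → ℝ} (hi : Integrable h) :
    (∀ᵐ x : ℝ, Integrable (fun y : Fin m → ℝ => h (Fin.cons x y : Fin (m + 1) → ℝ))) ∧
    Integrable (fun x : ℝ => ∫ y : Fin m → ℝ, h (Fin.cons x y : Fin (m + 1) → ℝ)) ∧
    ∫ x : ℝ, ∫ y : Fin m → ℝ, h (Fin.cons x y : Fin (m + 1) → ℝ) = ∫ z, h z := by
  have hp := (volume_preserving_piFinSuccAbove (fun _ : Fin (m + 1) => ℝ) 0).symm
  have hi2 : Integrable (fun p : ℝ × (Fin m → ℝ) =>
      h ((MeasurableEquiv.piFinSuccAbove (fun _ : Fin (m + 1) => ℝ) 0).symm p)) :=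
    (hp.integrable_comp_emb (MeasurableEquiv.measurableEmbedding _)).2 hi
  rw [Measure.volume_eq_prod] at hi2
  have e : ∀ (x : ℝ) (y : Fin m → ℝ),
      h ((MeasurableEquiv.piFinSuccAbove (fun _ : Fin (m + 1) => ℝ) 0).symm (x, y)) =
      h (Fin.cons x y : Fin (m + 1) → ℝ) := by
    intro x y
    show h (Fin.insertNth 0 x y) = h (Fin.cons x y)
    rw [Fin.insertNth_zero']
  have h1 := hi2.prod_right_ae
  have h2 := hi2.integral_prod_left
  have h3 := integral_prod _ hi2
  have h4 := hp.integral_comp' h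
  rw [Measure.volume_eq_prod] at h4
  rw [h4] at h3
  simp only [e] at h1 h2 h3
  exact ⟨h1, h2, h3.symm⟩

theorem slice_diff {m : ℕ} {h1 h2 : (Fin (m + 1) → ℝ) → ℝ} (i1 : Integrable h1)
    (i2 : Integrable h2) :
    ∫ x : ℝ, |(∫ y : Fin m → ℝ, h1 (Fin.cons x y : Fin (m + 1) → ℝ)) -
      ∫ y : Fin m → ℝ, h2 (Fin.cons x y : Fin (m + 1) → ℝ)| ≤ ∫ z, |h1 z - h2 z| := by
  have b1 := slice_base i1
  have b2 := slice_base i2
  have b3 := slice_base (i1.sub i2).abs
  have e3 : ∫ z, |h1 z - h2 z| = ∫ z, |(h1 - h2) z| := rfl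
  rw [e3, ← b3.2.2]
  refine integral_mono_ae (b1.2.1.sub b2.2.1).abs b3.2.1 ?_
  filter_upwards [b1.1, b2.1] with x hx1 hx2
  show |(∫ y : Fin m → ℝ, h1 (Fin.cons x y : Fin (m + 1) → ℝ)) -
      ∫ y : Fin m → ℝ, h2 (Fin.cons x y : Fin (m + 1) → ℝ)| ≤ _
  rw [← integral_sub hx1 hx2]
  exact abs_integral_le_integral_abs

theorem slice_tendsto {m : ℕ} {h : (Fin (m + 1) → ℝ) → ℝ} {H : ℕ → (Fin (m + 1) → ℝ) → ℝ}
    (i1 : Integrable h) (i2 : ∀ k, Integrable (H k))
    (hl : Tendsto (fun k => ∫ z, |H k z - h z|) atTop (𝓝 0)) :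
    Tendsto (fun k => ∫ x : ℝ, |(∫ y : Fin m → ℝ, H k (Fin.cons x y : Fin (m + 1) → ℝ)) -
      ∫ y : Fin m → ℝ, h (Fin.cons x y : Fin (m + 1) → ℝ)|) atTop (𝓝 0) :=
  squeeze_zero (fun k => integral_nonneg fun x => abs_nonneg _)
    (fun k => slice_diff (i2 k) i1) hl

/-! ### Products of `L¹` convergent and of bounded convergent sequences -/

theorem lim_mul {u : ℕ → ℝ → ℝ} {u' : ℝ → ℝ} {N : ℕ → ℝ → ℝ} {N' : ℝ → ℝ}
    (hu : ∀ k, Integrable (u k)) (hu' : Integrable u')
    (h1 : Tendsto (fun k => ∫ x, |u k x - u' x|) atTop (𝓝 0))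
    (hm : ∀ k, AEStronglyMeasurable (N k) volume) {C : ℝ}
    (hb : ∀ k x, |N k x| ≤ C)
    (hl : ∀ᵐ x, Tendsto (fun k => N k x) atTop (𝓝 (N' x))) :
    Integrable (fun x => u' x * N' x) ∧
    Tendsto (fun k => ∫ x, u k x * N k x) atTop (𝓝 (∫ x, u' x * N' x)) := by
  have hmN' : AEStronglyMeasurable N' volume := aestronglyMeasurable_of_tendsto_ae atTop hm hl
  have hbN' : ∀ᵐ x, |N' x| ≤ C := by
    filter_upwards [hl] with x hx
    exact le_of_tendsto hx.abs (Eventually.of_forall fun k => hb k x)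
  have hi' : Integrable (fun x => u' x * N' x) := by
    refine (hu'.abs.mul_const C).mono' (hu'.aestronglyMeasurable.mul hmN') ?_
    filter_upwards [hbN'] with x hx
    rw [Real.norm_eq_abs, abs_mul]
    exact mul_le_mul_of_nonneg_left hx (abs_nonneg _)
  have hik : ∀ (w : ℝ → ℝ), Integrable w → ∀ k, Integrable (fun x => w x * N k x) := by
    intro w hw k
    refine (hw.abs.mul_const C).mono' (hw.aestronglyMeasurable.mul (hm k)) ?_
    refine ae_of_all _ fun x => ?_
    rw [Real.norm_eq_abs, abs_mul]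
    exact mul_le_mul_of_nonneg_left (hb k x) (abs_nonneg _)
  refine ⟨hi', ?_⟩
  have t1 : Tendsto (fun k => ∫ x, u' x * N k x) atTop (𝓝 (∫ x, u' x * N' x)) := by
    refine tendsto_integral_of_dominated_convergence (fun x => |u' x| * C)
      (fun k => (hik u' hu' k).aestronglyMeasurable) (hu'.abs.mul_const C) (fun k => ?_) ?_
    · refine ae_of_all _ fun x => ?_
      rw [Real.norm_eq_abs, abs_mul]
      exact mul_le_mul_of_nonneg_left (hb k x) (abs_nonneg _)
    · filter_upwards [hl] with x hx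
      exact hx.const_mul _
  have t2 : Tendsto (fun k => ∫ x, (u k x - u' x) * N k x) atTop (𝓝 0) := by
    have hC : Tendsto (fun k => (∫ x, |u k x - u' x|) * C) atTop (𝓝 0) := by
      simpa using h1.mul_const C
    refine squeeze_zero_norm (fun k => ?_) hC
    rw [Real.norm_eq_abs, ← integral_mul_const]
    refine abs_integral_le_integral_abs.trans ?_
    refine integral_mono (hik _ ((hu k).sub hu') k).abs (((hu k).sub hu').abs.mul_const C)
      fun x => ?_
    show |(u k x - u' x) * N k x| ≤ |u k x - u' x| * C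
    rw [abs_mul]
    exact mul_le_mul_of_nonneg_left (hb k x) (abs_nonneg _)
  have t3 : (fun k => ∫ x, u k x * N k x) =
      fun k => (∫ x, u' x * N k x) + ∫ x, (u k x - u' x) * N k x := by
    funext k
    have e := integral_add (hik u' hu' k) (hik _ ((hu k).sub hu') k)
    refine Eq.trans ?_ e
    refine integral_congr_ae (ae_of_all _ fun x => ?_)
    show u k x * N k x = u' x * N k x + (u k x - u' x) * N k x
    ring
  rw [t3]
  simpa using t1.add t2

/-- bounded convergence of matrix valued functions -/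
structure BC {n : ℕ} (N : ℕ → ℝ → Mat n) (N' : ℝ → Mat n) : Prop where
  meas : ∀ k i j, AEStronglyMeasurable (fun x => N k x i j) volume
  bdd : ∃ C : ℝ, 0 ≤ C ∧ ∀ k x i j, |N k x i j| ≤ C
  lim : ∀ᵐ x, ∀ i j, Tendsto (fun k => N k x i j) atTop (𝓝 (N' x i j))

theorem BC.mul {n : ℕ} {N M : ℕ → ℝ → Mat n} {N' M' : ℝ → Mat n} (h1 : BC N N') (h2 : BC M M') :
    BC (fun k x => N k x * M k x) (fun x => N' x * M' x) := by
  obtain ⟨C, hC, hb⟩ := h1.bdd
  obtain ⟨D, hD, hd⟩ := h2.bdd
  refine ⟨fun k i j => ?_, ⟨n * (C * D), by positivity, fun k x i j => ?_⟩, ?_⟩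
  · simp only [Matrix.mul_apply]
    have := Finset.aestronglyMeasurable_sum (μ := volume) (Finset.univ : Finset (Fin n))
      (f := fun l => (fun x => N k x i l * M k x l j)) (fun l _ => (h1.meas k i l).mul (h2.meas k l j))
    refine this.congr (ae_of_all _ fun x => ?_)
    simp
  · simp only [Matrix.mul_apply]
    calc |∑ l, N k x i l * M k x l j| ≤ ∑ l, |N k x i l * M k x l j| :=
          Finset.abs_sum_le_sum_abs _ _
      _ ≤ ∑ _l : Fin n, C * D := by
          refine Finset.sum_le_sum fun l _ => ?_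
          rw [abs_mul]
          exact mul_le_mul (hb k x i l) (hd k x l j) (abs_nonneg _) hC
      _ = n * (C * D) := by simp
  · filter_upwards [h1.lim, h2.lim] with x hx1 hx2
    intro i j
    simp only [Matrix.mul_apply]
    exact tendsto_finsetSum _ fun l _ => (hx1 i l).mul (hx2 l j)

theorem BC.add {n : ℕ} {N M : ℕ → ℝ → Mat n} {N' M' : ℝ → Mat n} (h1 : BC N N') (h2 : BC M M') :
    BC (fun k x => N k x + M k x) (fun x => N' x + M' x) := by
  obtain ⟨C, hC, hb⟩ := h1.bdd
  obtain ⟨D, hD, hd⟩ := h2.bdd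
  refine ⟨fun k i j => ?_, ⟨C + D, by positivity, fun k x i j => ?_⟩, ?_⟩
  · exact (h1.meas k i j).add (h2.meas k i j)
  · exact (abs_add_le _ _).trans (add_le_add (hb k x i j) (hd k x i j))
  · filter_upwards [h1.lim, h2.lim] with x hx1 hx2
    intro i j
    exact (hx1 i j).add (hx2 i j)

theorem BC.const {n : ℕ} (M : Mat n) : BC (fun _ _ => M) (fun _ => M) := by
  refine ⟨fun k i j => aestronglyMeasurable_const, ⟨∑ i, ∑ j, |M i j|, ?_, fun k x i j => ?_⟩, ?_⟩
  · exact Finset.sum_nonneg fun i _ => Finset.sum_nonneg fun j _ => abs_nonneg _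
  · calc |M i j| ≤ ∑ j, |M i j| :=
        Finset.single_le_sum (f := fun j => |M i j|) (fun _ _ => abs_nonneg _) (Finset.mem_univ j)
      _ ≤ ∑ i, ∑ j, |M i j| :=
        Finset.single_le_sum (f := fun i => ∑ j, |M i j|)
          (fun _ _ => Finset.sum_nonneg fun _ _ => abs_nonneg _) (Finset.mem_univ i)
  · exact ae_of_all _ fun x i j => tendsto_const_nhds

theorem BC.smul {n : ℕ} {N : ℕ → ℝ → Mat n} {N' : ℝ → Mat n} (h1 : BC N N') (c : ℝ) :
    BC (fun k x => c • N k x) (fun x => c • N' x) := by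
  obtain ⟨C, hC, hb⟩ := h1.bdd
  refine ⟨fun k i j => ?_, ⟨|c| * C, by positivity, fun k x i j => ?_⟩, ?_⟩
  · exact (h1.meas k i j).const_mul c
  · show |c * N k x i j| ≤ _
    rw [abs_mul]
    exact mul_le_mul_of_nonneg_left (hb k x i j) (abs_nonneg _)
  · filter_upwards [h1.lim] with x hx1
    intro i j
    exact (hx1 i j).const_mul c

theorem BC.pow {n : ℕ} {N : ℕ → ℝ → Mat n} {N' : ℝ → Mat n} (h1 : BC N N') (q : ℕ) :
    BC (fun k x => N k x ^ q) (fun x => N' x ^ q) := by
  induction q with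
  | zero => simpa using BC.const (1 : Mat n)
  | succ q ih =>
    simp only [pow_succ]
    exact ih.mul h1

theorem BC.pm {n : ℕ} {N : ℕ → ℝ → Mat n} {N' : ℝ → Mat n} (h1 : BC N N') (A : Finset ℕ)
    (a : ℕ → ℝ) :
    BC (fun k x => Pool.Agent.W2helper1.LT.pm A a (N k x))
      (fun x => Pool.Agent.W2helper1.LT.pm A a (N' x)) := by
  unfold Pool.Agent.W2helper1.LT.pm
  classical
  induction A using Finset.induction_on with
  | empty => simpa using BC.const (0 : Mat n)
  | insert q A hq ih =>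
    simp only [Finset.sum_insert hq]
    exact ((h1.pow q).smul (a q)).add ih

theorem lim_trace {n : ℕ} {U : ℕ → ℝ → Mat n} {U' : ℝ → Mat n} {N : ℕ → ℝ → Mat n}
    {N' : ℝ → Mat n} (hU : ∀ k i j, Integrable (fun x => U k x i j))
    (hU' : ∀ i j, Integrable (fun x => U' x i j))
    (h1 : ∀ i j, Tendsto (fun k => ∫ x, |U k x i j - U' x i j|) atTop (𝓝 0)) (hN : BC N N') :
    Integrable (fun x => (U' x * N' x).trace) ∧
    (∀ k, Integrable (fun x => (U k x * N k x).trace)) ∧
    Tendsto (fun k => ∫ x, (U k x * N k x).trace) atTop (𝓝 (∫ x, (U' x * N' x).trace)) := by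
  obtain ⟨C, hC, hb⟩ := hN.bdd
  have hl : ∀ i j, ∀ᵐ x, Tendsto (fun k => N k x i j) atTop (𝓝 (N' x i j)) := by
    intro i j
    filter_upwards [hN.lim] with x hx
    exact hx i j
  have key := fun i j => lim_mul (fun k => hU k i j) (hU' i j) (h1 i j) (fun k => hN.meas k j i)
    (fun k x => hb k x j i) (hl j i)
  have hk : ∀ k i j, Integrable (fun x => U k x i j * N k x j i) := by
    intro k i j
    refine ((hU k i j).abs.mul_const C).mono'
      ((hU k i j).aestronglyMeasurable.mul (hN.meas k j i)) ?_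
    refine ae_of_all _ fun x => ?_
    rw [Real.norm_eq_abs, abs_mul]
    exact mul_le_mul_of_nonneg_left (hb k x j i) (abs_nonneg _)
  have e : ∀ (P Q : Mat n), (P * Q).trace = ∑ i, ∑ j, P i j * Q j i := by
    intro P Q
    simp [Matrix.trace, Matrix.mul_apply]
  simp only [e]
  refine ⟨integrable_finsetSum _ fun i _ => integrable_finsetSum _ fun j _ => (key i j).1,
    fun k => integrable_finsetSum _ fun i _ => integrable_finsetSum _ fun j _ => hk k i j, ?_⟩
  have e1 : ∫ x, ∑ i, ∑ j, U' x i j * N' x j i = ∑ i, ∑ j, ∫ x, U' x i j * N' x j i := by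
    rw [integral_finsetSum _ fun i _ => integrable_finsetSum _ fun j _ => (key i j).1]
    exact Finset.sum_congr rfl fun i _ => integral_finsetSum _ fun j _ => (key i j).1
  have e2 : ∀ k, ∫ x, ∑ i, ∑ j, U k x i j * N k x j i = ∑ i, ∑ j, ∫ x, U k x i j * N k x j i := by
    intro k
    rw [integral_finsetSum _ fun i _ => integrable_finsetSum _ fun j _ => hk k i j]
    exact Finset.sum_congr rfl fun i _ => integral_finsetSum _ fun j _ => hk k i j
  rw [e1]
  simp only [e2]
  exact tendsto_finsetSum _ fun i _ => tendsto_finsetSum _ fun j _ => (key i j).2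

theorem mem_cs {m : ℕ} {w : (Fin m → ℝ) → ℝ} (hw : Continuous w) (hc : HasCompactSupport w) :
    MemLp w 2 volume := hw.memLp_of_hasCompactSupport hc

/-- the values of `R` from its derivative -/
theorem R_eq {n : ℕ} {R S Q : ℝ → Mat n} (h : Sys R S Q) (i j : Fin n) (x : ℝ) :
    (Integrable fun t => S t i j) ∧ R x i j = ∫ t in Iic x, (S t i j + S t j i) := by
  obtain ⟨M, hM⟩ := h.supp
  have hSi : ∀ i j, Integrable (fun t => S t i j) := by
    intro i j
    refine (h.cS i j).integrable_of_hasCompactSupport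
      (HasCompactSupport.intro (isCompact_Icc (a := -M) (b := M)) fun y hy => ?_)
    have hy2 : M < |y| := by
      by_contra hcon
      push Not at hcon
      exact hy (abs_le.1 hcon)
    rw [(hM y hy2).2.1]
    rfl
  refine ⟨hSi i j, ?_⟩
  have hbot : Tendsto (fun t => R t i j) atBot (𝓝 0) := by
    refine tendsto_const_nhds.congr' ?_
    filter_upwards [eventually_lt_atBot (-|M|)] with t ht
    have h1 : M < |t| := by
      have h2 : |M| < -t := by linarith
      exact lt_of_le_of_lt (le_abs_self M) (lt_of_lt_of_le h2 (neg_le_abs t))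
    rw [(hM t h1).1]
    rfl
  have := integral_Iic_of_hasDerivAt_of_tendsto' (a := x) (f := fun t => R t i j)
    (f' := fun t => S t i j + S t j i) (m := 0) (fun t _ => h.der t i j)
    ((hSi i j).add (hSi j i)).integrableOn hbot
  rw [this, sub_zero]

/-- pointwise convergence and boundedness of the primitives from `L¹` convergence -/
theorem ptw (u : ℕ → ℝ → ℝ) (u' : ℝ → ℝ) (hu : ∀ k, Integrable (u k)) (hu' : Integrable u')
    (hl : Tendsto (fun k => ∫ x, |u k x - u' x|) atTop (𝓝 0)) :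
    (∀ x, Tendsto (fun k => ∫ t in Iic x, u k t) atTop (𝓝 (∫ t in Iic x, u' t))) ∧
      ∃ C : ℝ, 0 ≤ C ∧ ∀ k x, |∫ t in Iic x, u k t| ≤ C := by
  constructor
  · intro x
    rw [tendsto_iff_norm_sub_tendsto_zero]
    refine squeeze_zero (fun k => norm_nonneg _) (fun k => ?_) hl
    rw [← integral_sub (hu k).integrableOn hu'.integrableOn]
    refine (norm_integral_le_integral_norm _).trans ?_
    exact setIntegral_le_integral ((hu k).sub hu').abs (ae_of_all _ fun x => abs_nonneg _)
  · obtain ⟨C, hC⟩ := hl.bddAbove_range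
    have hC0 : 0 ≤ C := (integral_nonneg fun x => abs_nonneg _).trans (hC ⟨0, rfl⟩)
    refine ⟨C + ∫ x, |u' x|, add_nonneg hC0 (integral_nonneg fun x => abs_nonneg _),
      fun k x => ?_⟩
    have e1 : |∫ t in Iic x, u k t| ≤ ∫ t, |u k t| :=
      abs_integral_le_integral_abs.trans
        (setIntegral_le_integral (hu k).abs (ae_of_all _ fun x => abs_nonneg _))
    have e2 : ∫ t, |u k t| ≤ (∫ t, |u k t - u' t|) + ∫ t, |u' t| := by
      have e := integral_add ((hu k).sub hu').abs hu'.abs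
      refine le_trans ?_ e.le
      refine integral_mono (hu k).abs (((hu k).sub hu').abs.add hu'.abs) fun t => ?_
      show |u k t| ≤ |u k t - u' t| + |u' t|
      have := abs_add_le (u k t - u' t) (u' t)
      simpa using this
    exact e1.trans (e2.trans (add_le_add (hC ⟨k, rfl⟩) le_rfl))

theorem ae_eq_of_lim (u : ℕ → ℝ → ℝ) (u' v : ℝ → ℝ) (hu : ∀ k, Integrable (u k))
    (hu' : Integrable u') (hl : Tendsto (fun k => ∫ x, |u k x - u' x|) atTop (𝓝 0))
    (hv : ∀ x, Tendsto (fun k => u k x) atTop (𝓝 (v x))) : ∀ᵐ x, u' x = v x := by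
  have t1 : TendstoInMeasure volume u atTop u' := by
    refine tendstoInMeasure_of_tendsto_eLpNorm (p := 1) one_ne_zero
      (fun k => (hu k).aestronglyMeasurable) hu'.aestronglyMeasurable ?_
    have e : ∀ k, eLpNorm (u k - u') 1 volume = ENNReal.ofReal (∫ x, |u k x - u' x|) := by
      intro k
      rw [eLpNorm_one_eq_lintegral_enorm]
      exact (ofReal_integral_norm_eq_lintegral_enorm ((hu k).sub hu')).symm
    simp only [e]
    have := (ENNReal.continuous_ofReal.tendsto 0).comp hl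
    rw [ENNReal.ofReal_zero] at this
    exact this
  obtain ⟨ns, hns, hae⟩ := t1.exists_seq_tendsto_ae
  filter_upwards [hae] with x hx
  exact tendsto_nhds_unique hx ((hv x).comp hns.tendsto_atTop)

theorem bound_sum {n : ℕ} {D : Fin n → Fin n → ℝ} (hD : ∀ i j, 0 ≤ D i j) (i j : Fin n) :
    D i j ≤ ∑ i, ∑ j, D i j :=
  (Finset.single_le_sum (f := fun j => D i j) (fun j _ => hD i j) (Finset.mem_univ j)).trans
    (Finset.single_le_sum (f := fun i => ∑ j, D i j)
      (fun i _ => Finset.sum_nonneg fun j _ => hD i j) (Finset.mem_univ i))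

theorem lim : Lim := by
  intro m n A a f g F hf hg hF hc h1 h2
  have cF : ∀ k i, Continuous (F k i) := fun k i => (hF k i).continuous
  have cd : ∀ k i, Continuous (pd 0 (F k i)) := fun k i => (pd_basic (hF k i) (hc k i) 0).1
  have kd : ∀ k i, HasCompactSupport (pd 0 (F k i)) := fun k i => (pd_basic (hF k i) (hc k i) 0).2
  have mF : ∀ k i, MemLp (F k i) 2 volume := fun k i => mem_cs (cF k i) (hc k i)
  have mD : ∀ k i, MemLp (pd 0 (F k i)) 2 volume := fun k i => mem_cs (cd k i) (kd k i)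
  have sys := fun k => slice_sys (F k) (hF k) (hc k)
  -- L¹ convergence of the slices
  have iR : ∀ i j, Integrable (fun x => RS f x i j) := fun i j =>
    (slice_base ((hf i).integrable_mul (hf j))).2.1
  have iS : ∀ i j, Integrable (fun x => SF g f x i j) := fun i j =>
    (slice_base ((hg i).integrable_mul (hf j))).2.1
  have iRk : ∀ k i j, Integrable (fun x => RS (F k) x i j) := fun k i j =>
    (slice_base ((mF k i).integrable_mul (mF k j))).2.1
  have iSk : ∀ k i j, Integrable (fun x => SF (fun i => pd 0 (F k i)) (F k) x i j) := fun k i j =>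
    (slice_base ((mD k i).integrable_mul (mF k j))).2.1
  have lR : ∀ i j, Tendsto (fun k => ∫ x, |RS (F k) x i j - RS f x i j|) atTop (𝓝 0) := fun i j =>
    slice_tendsto ((hf i).integrable_mul (hf j)) (fun k => (mF k i).integrable_mul (mF k j))
      (prod_L1 (hf i) (hf j) (fun k => mF k i) (fun k => mF k j) (h1 i) (h1 j))
  have lS : ∀ i j, Tendsto (fun k => ∫ x, |SF (fun i => pd 0 (F k i)) (F k) x i j - SF g f x i j|)
      atTop (𝓝 0) := fun i j =>
    slice_tendsto ((hg i).integrable_mul (hf j)) (fun k => (mD k i).integrable_mul (mF k j))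
      (prod_L1 (hg i) (hf j) (fun k => mD k i) (fun k => mF k j) (h2 i) (h1 j))
  -- `R`
  have RSeq : ∀ k i j x, RS (F k) x i j = (∫ t in Iic x, SS (F k) t i j) +
      ∫ t in Iic x, SS (F k) t j i := by
    intro k i j x
    rw [(R_eq (sys k) i j x).2]
    exact integral_add (R_eq (sys k) i j x).1.integrableOn (R_eq (sys k) j i x).1.integrableOn
  have lRp : ∀ i j x, Tendsto (fun k => RS (F k) x i j) atTop
      (𝓝 ((∫ t in Iic x, SF g f t i j) + ∫ t in Iic x, SF g f t j i)) := by
    intro i j x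
    simp only [RSeq]
    exact ((ptw _ _ (fun k => iSk k i j) (iS i j) (lS i j)).1 x).add
      ((ptw _ _ (fun k => iSk k j i) (iS j i) (lS j i)).1 x)
  have Rae : ∀ i j, ∀ᵐ x, RS f x i j =
      (∫ t in Iic x, SF g f t i j) + ∫ t in Iic x, SF g f t j i := by
    intro i j
    exact ae_eq_of_lim _ _ _ (fun k => iRk k i j) (iR i j) (lR i j) (lRp i j)
  have bR : BC (fun k x => RS (F k) x) (fun x => RS f x) := by
    refine ⟨fun k i j => (iRk k i j).aestronglyMeasurable, ?_, ?_⟩
    · choose C hC hb using fun i j => (ptw _ _ (fun k => iSk k i j) (iS i j) (lS i j)).2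
      refine ⟨∑ i, ∑ j, (C i j + C j i), Finset.sum_nonneg fun i _ => Finset.sum_nonneg fun j _ =>
        add_nonneg (hC i j) (hC j i), fun k x i j => ?_⟩
      rw [RSeq]
      exact ((abs_add_le _ _).trans (add_le_add (hb i j k x) (hb j i k x))).trans
        (bound_sum (D := fun i j => C i j + C j i) (fun i j => add_nonneg (hC i j) (hC j i)) i j)
    · have : ∀ᵐ x, ∀ i j, RS f x i j =
          (∫ t in Iic x, SF g f t i j) + ∫ t in Iic x, SF g f t j i := by
        rw [ae_all_iff]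
        intro i
        rw [ae_all_iff]
        exact fun j => Rae i j
      filter_upwards [this] with x hx
      intro i j
      rw [hx i j]
      exact lRp i j x
  -- `B`
  have bG : BC (fun k x => Gam (RS (F k)) x) (fun x => Gam (RS f) x) := by
    refine ⟨fun k i j => ?_, ?_, ?_⟩
    · have : Continuous fun x => Gam (RS (F k)) x i j :=
        continuous_iff_continuousAt.2 fun y => (gam_der (sys k) y i j).continuousAt
      exact this.aestronglyMeasurable
    · choose C hC hb using fun i j => (ptw _ _ (fun k => iRk k i j) (iR i j) (lR i j)).2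
      refine ⟨∑ i, ∑ j, C i j, Finset.sum_nonneg fun i _ => Finset.sum_nonneg fun j _ => hC i j,
        fun k x i j => ?_⟩
      exact (hb i j k x).trans (bound_sum hC i j)
    · exact ae_of_all _ fun x i j => (ptw _ _ (fun k => iRk k i j) (iR i j) (lR i j)).1 x
  have bB : BC (fun k x => Gam (RS (F k)) x - (1 / 2 : ℝ) • 1)
      (fun x => Gam (RS f) x - (1 / 2 : ℝ) • 1) := by
    simp only [sub_eq_add_neg]
    exact bG.add (BC.const _)
  have bP := bB.pm A a
  have q1 := lim_trace iSk iS lS (bP.mul bR)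
  have q2 := lim_trace iRk iR lR (((bP.mul bR).mul bP).mul bR)
  have e1 : ∀ (f v : Fin n → (Fin (m + 1) → ℝ) → ℝ) (x : ℝ), FW A a f v x =
      -(4 * (SF v f x * (Pool.Agent.W2helper1.LT.pm A a (Gam (RS f) x - (1 / 2 : ℝ) • 1) *
        RS f x)).trace) -
      (RS f x * (Pool.Agent.W2helper1.LT.pm A a (Gam (RS f) x - (1 / 2 : ℝ) • 1) * RS f x *
        Pool.Agent.W2helper1.LT.pm A a (Gam (RS f) x - (1 / 2 : ℝ) • 1) * RS f x)).trace := by
    intro f v x
    unfold FW fw
    simp only [Matrix.mul_assoc]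
  refine ⟨((q1.1.const_mul 4).neg.sub q2.1).congr (ae_of_all _ fun x => (e1 f g x).symm), ?_⟩
  simp only [e1]
  have e2 : ∀ (u w : ℝ → ℝ), Integrable u → Integrable w →
      ∫ x, (-(4 * u x) - w x) = -(4 * ∫ x, u x) - ∫ x, w x := by
    intro u w hu hw
    rw [← integral_const_mul, ← integral_neg]
    exact integral_sub (hu.const_mul 4).neg hw
  rw [e2 _ _ q1.1 q2.1]
  have e3 : ∀ k, ∫ x, (-(4 * (SF (fun i => pd 0 (F k i)) (F k) x *
      (Pool.Agent.W2helper1.LT.pm A a (Gam (RS (F k)) x - (1 / 2 : ℝ) • 1) *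
        RS (F k) x)).trace) -
      (RS (F k) x * (Pool.Agent.W2helper1.LT.pm A a (Gam (RS (F k)) x - (1 / 2 : ℝ) • 1) *
        RS (F k) x * Pool.Agent.W2helper1.LT.pm A a (Gam (RS (F k)) x - (1 / 2 : ℝ) • 1) *
        RS (F k) x)).trace) = _ := fun k => e2 _ _ (q1.2.1 k) (q2.2.1 k)
  simp only [e3]
  exact (q1.2.2.const_mul 4).neg.sub q2.2.2

end Pool.Agent.W2helper54.LT
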